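import Pool.Agent.Q172.FTO.Def

/-!
# Project FTO, job 1: the gaps of the Cantor set
-/

set_option autoImplicit false

namespace Pool.Agent.Q65.FTO

open Pool.Agent.Q172.FTO

theorem ga {m d : ℝ} (h : G m d) : 0 < d ∧ 0 < m ∧ m + d < 1 ∧ d ≤ 1 / 8 := by
  induction h with
  | base => norm_num
  | left _ ih => obtain ⟨h1, h2, h3, h4⟩ := ih; refine ⟨by linarith, by linarith, by linarith, by linarith⟩
  | right _ ih => obtain ⟨h1, h2, h3, h4⟩ := ih; refine ⟨by linarith, by linarith, by linarith, by linarith⟩

theorem gb {m d : ℝ} (h : G m d) : ∀ m' d' : ℝ, G m' d' → m < m' → m + d < m' := by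
  induction h with
  | base =>
    intro m' d' h' hlt
    cases h' with
    | base => linarith
    | left h' => have := ga h'; linarith
    | right h' => have := ga h'; linarith
  | left h0 ih =>
    intro m' d' h' hlt
    have h1 := ga h0
    cases h' with
    | base => linarith
    | left h' => have := ih _ _ h' (by linarith); linarith
    | right h' => have := ga h'; linarith
  | right h0 ih =>
    intro m' d' h' hlt
    have h1 := ga h0
    cases h' with
    | base => linarith
    | left h' => have := ga h'; linarith
    | right h' => have := ih _ _ h' (by linarith); linarith

theorem gc {m d : ℝ} (h : G m d) : ∀ m' d' : ℝ, G m' d' → m = m' → d = d' := by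
  induction h with
  | base =>
    intro m' d' h' he
    cases h' with
    | base => rfl
    | left h' => have := ga h'; linarith
    | right h' => have := ga h'; linarith
  | left h0 ih =>
    intro m' d' h' he
    have h1 := ga h0
    cases h' with
    | base => linarith
    | left h' => have := ih _ _ h' (by linarith); linarith
    | right h' => have := ga h'; linarith
  | right h0 ih =>
    intro m' d' h' he
    have h1 := ga h0
    cases h' with
    | base => linarith
    | left h' => have := ga h'; linarith
    | right h' => have := ih _ _ h' (by linarith); linarith

theorem gd {m d : ℝ} (h : G m d) : G (1 - m) d := by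
  induction h with
  | base =>
    have h := G.base
    rwa [show (1 / 2 : ℝ) = 1 - 1 / 2 by norm_num] at h
  | @left m d _ ih =>
    have h := ih.right
    rwa [show (1 - m + 2) / 3 = 1 - m / 3 by ring] at h
  | @right m d _ ih =>
    have h := ih.left
    rwa [show (1 - m) / 3 = 1 - (m + 2) / 3 by ring] at h

theorem job1 : S_G := by
  refine ⟨fun m d h => ga h, fun m d m' d' h h' => gb h m' d' h', fun m d d' h h' => gc h m d' h' rfl,
    fun m d h => gd h, ?_, ?_, ?_⟩
  · intro m d h hm
    cases h with
    | base => norm_num at hm
    | left h' => have := ga h'; linarith
    | @right m d h' =>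
      rwa [show 3 * ((m + 2) / 3) - 2 = m by ring, show 3 * (d / 3) = d by ring]
  · intro m d h hm
    cases h with
    | base => exact absurd rfl hm
    | left h' => have := ga h'; left; linarith
    | right h' => have := ga h'; right; linarith
  · intro m d h hm
    cases h with
    | base => norm_num
    | left h' => have := ga h'; linarith
    | right h' => have := ga h'; linarith

end Pool.Agent.Q65.FTO
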