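import Pool.Agent.Q172.FTO.Def

/-!
# Project FTO, job 4: homogeneity with respect to finite-to-one maps
-/

set_option autoImplicit false

open Set Topology

namespace Pool.Agent.Q65.FTO

open Pool.Agent.Q172.FTO

/-- the relation of the job -/
def Rel (a b : XS) : Prop := ∃ f : XS → XS, IsFTO f ∧ f a = b

theorem rel_trans {a b c : XS} (h1 : Rel a b) (h2 : Rel b c) : Rel a c := by
  obtain ⟨f, ⟨f1, f2, f3⟩, f4⟩ := h1
  obtain ⟨g, ⟨g1, g2, g3⟩, g4⟩ := h2
  refine ⟨g ∘ f, ⟨g1.comp f1, g2.comp f2, fun y => ?_⟩, by rw [Function.comp_apply, f4, g4]⟩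
  have e : (g ∘ f) ⁻¹' {y} = ⋃ x ∈ g ⁻¹' {y}, f ⁻¹' {x} := by
    ext z
    constructor
    · intro h
      exact Set.mem_iUnion₂.2 ⟨f z, h, rfl⟩
    · intro h
      obtain ⟨x, hx, hz⟩ := Set.mem_iUnion₂.1 h
      have hz' : f z = x := hz
      show g (f z) = y
      rw [hz']
      exact hx
  rw [e]
  exact (g3 y).biUnion fun x _ => f3 x

theorem rel_refl (a : XS) : Rel a a :=
  ⟨id, ⟨continuous_id, Function.surjective_id, fun y => by simp⟩, rfl⟩

/-- the reflection -/
theorem refl_mem (hG : S_G) {p : ℝ × ℝ × ℝ} (hp : p ∈ XS) : ((1 - p.1, p.2.1, p.2.2) : ℝ × ℝ × ℝ) ∈ XS := by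
  rcases hp with ⟨h1, h2, h3, h4⟩ | ⟨m, d, hmd, i, h1, h2, h3, h4⟩
  · exact Or.inl ⟨by simp only; linarith, by simp only; linarith, h3, h4⟩
  · refine Or.inr ⟨1 - m, d, hG.2.2.2.1 m d hmd, i, ?_, h2, h3, h4⟩
    simp only
    rw [h1]

theorem rel_refl' (hG : S_G) (a : XS) : Rel a ⟨_, refl_mem hG a.2⟩ := by
  have hinv : Function.Involutive fun p : XS => (⟨_, refl_mem hG p.2⟩ : XS) := by
    intro p
    apply Subtype.ext
    show ((1 - (1 - p.1.1), p.1.2.1, p.1.2.2) : ℝ × ℝ × ℝ) = p.1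
    rw [sub_sub_cancel]
  refine ⟨fun p => ⟨_, refl_mem hG p.2⟩, ⟨?_, hinv.surjective, fun y => ?_⟩, rfl⟩
  · exact Continuous.subtype_mk (by fun_prop) _
  · exact Set.Finite.preimage hinv.injective.injOn (Set.finite_singleton y)

theorem zero_mem : ((0, 0, 0) : ℝ × ℝ × ℝ) ∈ XS := Or.inl ⟨le_rfl, zero_le_one, rfl, rfl⟩

theorem quad_finite (α β q : ℝ) : {s : ℝ | (s - α) * (s - β) = q}.Finite := by
  rcases Set.eq_empty_or_nonempty {s : ℝ | (s - α) * (s - β) = q} with h | ⟨s0, h0⟩
  · rw [h]; exact Set.finite_empty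
  · refine Set.Finite.subset (Set.toFinite {s0, α + β - s0}) fun s hs => ?_
    have h1 : (s - s0) * (s - (α + β - s0)) = 0 := by
      have h2 : (s - α) * (s - β) = q := hs
      have h3 : (s0 - α) * (s0 - β) = q := h0
      linear_combination h2 - h3
    rcases mul_eq_zero.1 h1 with h | h
    · exact Or.inl (by linarith)
    · exact Or.inr (by
        show s = α + β - s0
        linarith)

theorem to_zero (hG : S_G) (hX : S_X) (hg : S_glue) {a : XS} (ha : (a : ℝ × ℝ × ℝ).1 ≤ 1 / 2) :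
    Rel a ⟨(0, 0, 0), zero_mem⟩ := by
  have hra0 : 0 ≤ r a := ((hX hG).2.2.1 a a.2).1
  have hra : r a < 2 / 3 := by
    rcases a.2 with ⟨h1, h2, h3, h4⟩ | ⟨m, d, hmd, i, h1, h2, h3, h4⟩
    · unfold r; rw [h3]; linarith
    · have hm : m < 2 / 3 := by rw [← h1]; linarith
      have h5 := hG.2.2.2.2.2.2 m d hmd hm
      have h6 := (hG.1 m d hmd).1
      have h7 : d * (1 / 2) ^ i ≤ d * 1 :=
        mul_le_mul_of_nonneg_left (pow_le_one₀ (by norm_num) (by norm_num)) h6.le
      unfold r; rw [h1]; linarith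
  obtain ⟨f, hf, hfe⟩ := hg hG hX (fun s => (|(s - r a) * (s - 2 / 3)|, 0, 0)) (by fun_prop)
    (fun s hs => by
      refine Or.inl ⟨abs_nonneg _, ?_, rfl, rfl⟩
      show |(s - r a) * (s - 2 / 3)| ≤ 1
      rw [abs_mul]
      have h1 : |s - r a| ≤ 1 := by rw [abs_le]; constructor <;> linarith [hs.1, hs.2]
      have h2 : |s - 2 / 3| ≤ 1 := by rw [abs_le]; constructor <;> linarith [hs.1, hs.2]
      calc |s - r a| * |s - 2 / 3| ≤ 1 * 1 := mul_le_mul h1 h2 (abs_nonneg _) zero_le_one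
        _ = 1 := one_mul 1)
    (by simp) (fun q => by
      refine Set.Finite.subset ((quad_finite (r a) (2 / 3) q.1).union (quad_finite (r a) (2 / 3) (-q.1))) ?_
      rintro s ⟨_, hs⟩
      have h1 : |(s - r a) * (s - 2 / 3)| = q.1 := by
        rw [← hs]
      rcases abs_choice ((s - r a) * (s - 2 / 3)) with h | h
      · left
        show (s - r a) * (s - 2 / 3) = q.1
        rw [← h1, h]
      · right
        show (s - r a) * (s - 2 / 3) = -q.1
        rw [← h1, h, neg_neg])
  refine ⟨f, hf, Subtype.ext ?_⟩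
  rw [hfe a hra.le]
  simp

theorem from_zero (hG : S_G) (hX : S_X) (hg : S_glue) (b : XS) : Rel ⟨(0, 0, 0), zero_mem⟩ b := by
  -- the normal form of `b`
  obtain ⟨x, ρ, κ, hb, hx0, hx1, hρ, harm⟩ : ∃ x ρ κ : ℝ, (b : ℝ × ℝ × ℝ) = (x, ρ, ρ * κ) ∧ 0 ≤ x ∧ x ≤ 1 ∧
      0 ≤ ρ ∧ ∀ v, 0 ≤ v → v ≤ ρ → ((x, v, v * κ) : ℝ × ℝ × ℝ) ∈ XS := by
    rcases b.2 with ⟨h1, h2, h3, h4⟩ | ⟨m, d, hmd, i, h1, h2, h3, h4⟩
    · refine ⟨(b : ℝ × ℝ × ℝ).1, 0, 1, ?_, h1, h2, le_rfl, fun v hv0 hv1 => ?_⟩
      · ext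
        · rfl
        · exact h3
        · rw [h4]; simp
      · have hv : v = 0 := le_antisymm hv1 hv0
        subst hv
        exact Or.inl ⟨h1, h2, rfl, by simp⟩
    · have h5 := hG.1 m d hmd
      refine ⟨m, (b : ℝ × ℝ × ℝ).2.1, (1 / 2) ^ i, ?_, h5.2.1.le, by linarith, h2, fun v hv0 hv1 => ?_⟩
      · ext
        · exact h1
        · rfl
        · exact h4
      · exact Or.inr ⟨m, d, hmd, i, rfl, hv0, hv1.trans h3, rfl⟩
  rcases eq_or_lt_of_le (add_nonneg hx0 hρ) with h0 | h0
  · have hx : x = 0 := by linarith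
    have hr : ρ = 0 := by linarith
    have e : (⟨(0, 0, 0), zero_mem⟩ : XS) = b := by
      apply Subtype.ext
      rw [hb, hx, hr]
      simp
    rw [e]
    exact rel_refl b
  · set u : ℝ → ℝ := fun s => -ρ + (x + ρ) * (3 / 2) * s with hu
    obtain ⟨f, hf, hfe⟩ := hg hG hX (fun s => (x - max (u s) 0, max (-u s) 0, max (-u s) 0 * κ))
      (by
        have : Continuous u := by rw [hu]; fun_prop
        fun_prop)
      (fun s hs => by
        have h1 : u s ≤ x := by
          have : (x + ρ) * (3 / 2) * s ≤ (x + ρ) * (3 / 2) * (2 / 3) := mul_le_mul_of_nonneg_left hs.2 (by positivity)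
          simp only [hu]
          linarith
        have h2 : -ρ ≤ u s := by
          have : 0 ≤ (x + ρ) * (3 / 2) * s := mul_nonneg (by positivity) hs.1
          simp only [hu]
          linarith
        rcases le_total 0 (u s) with h3 | h3
        · have e1 : max (u s) 0 = u s := max_eq_left h3
          have e2 : max (-u s) 0 = 0 := max_eq_right (by linarith)
          refine Or.inl ⟨?_, ?_, ?_, ?_⟩
          · show 0 ≤ x - max (u s) 0
            rw [e1]; linarith
          · show x - max (u s) 0 ≤ 1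
            rw [e1]; linarith
          · exact e2
          · show max (-u s) 0 * κ = 0
            rw [e2, zero_mul]
        · have e1 : max (u s) 0 = 0 := max_eq_right h3
          have e2 : max (-u s) 0 = -u s := max_eq_left (by linarith)
          show ((x - max (u s) 0, max (-u s) 0, max (-u s) 0 * κ) : ℝ × ℝ × ℝ) ∈ XS
          rw [e1, e2, sub_zero]
          exact harm _ (by linarith) (by linarith))
      (by
        have e : u (2 / 3) = x := by simp only [hu]; ring
        rw [e, max_eq_left hx0, max_eq_right (by linarith : -x ≤ 0)]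
        simp)
      (fun q => by
        refine Set.Subsingleton.finite ?_
        rintro s ⟨_, hs⟩ s' ⟨_, hs'⟩
        have hval : ∀ s, x - (x - max (u s) 0) - max (-u s) 0 = u s := by
          intro s
          rcases le_total 0 (u s) with h3 | h3
          · rw [max_eq_left h3, max_eq_right (by linarith : -u s ≤ 0)]; ring
          · rw [max_eq_right h3, max_eq_left (by linarith : 0 ≤ -u s)]; ring
        have h1 : u s = u s' := by
          rw [← hval s, ← hval s']
          have h2 := hs.trans hs'.symm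
          have h3 : x - max (u s) 0 = x - max (u s') 0 := congrArg Prod.fst h2
          have h4 : max (-u s) 0 = max (-u s') 0 := congrArg (fun p : ℝ × ℝ × ℝ => p.2.1) h2
          rw [h3, h4]
        simp only [hu] at h1
        have h5 : (x + ρ) * (3 / 2) * (s - s') = 0 := by linarith
        rcases mul_eq_zero.1 h5 with h6 | h6
        · exfalso
          have : 0 < (x + ρ) * (3 / 2) := by positivity
          linarith
        · linarith)
    refine ⟨f, hf, Subtype.ext ?_⟩
    have hr0 : r ((⟨(0, 0, 0), zero_mem⟩ : XS) : ℝ × ℝ × ℝ) = 0 := by simp [r]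
    rw [hfe _ (by rw [hr0]; norm_num), hr0, hb]
    have e : u 0 = -ρ := by simp only [hu]; ring
    rw [e, neg_neg, max_eq_right (by linarith : -ρ ≤ 0), max_eq_left hρ, sub_zero]

theorem job4 : S_hom := by
  intro hG hX hg a b
  have h0 : Rel a ⟨(0, 0, 0), zero_mem⟩ := by
    rcases le_total (a : ℝ × ℝ × ℝ).1 (1 / 2) with h | h
    · exact to_zero hG hX hg h
    · refine rel_trans (rel_refl' hG a) (to_zero hG hX hg ?_)
      show 1 - (a : ℝ × ℝ × ℝ).1 ≤ 1 / 2
      linarith
  exact rel_trans h0 (from_zero hG hX hg b)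

end Pool.Agent.Q65.FTO
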