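import Pool.Agent.Q172.FTO.Def

/-!
# Project FTO, job 6: nested intervals and an infinite fibre
-/

set_option autoImplicit false

open Set Topology

namespace Pool.Agent.Q65.FTO

open Pool.Agent.Q172.FTO

/-- the image of a nondegenerate continuum contains an interval on one side of a given value -/
theorem side {Y : Type} [MetricSpace Y] {O : Set Y} {P : Y → ℝ} (hP : Continuous P)
    (hfib : ∀ t, {y ∈ O | P y = t}.Finite) {C : Set Y} (hC : IsPreconnected C) (hCn : C.Nontrivial)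
    (hCO : C ⊆ O) {v : Y} (hv : v ∈ C) : ∃ η : ℝ, 0 < η ∧
    (Icc (P v) (P v + η) ⊆ P '' C ∨ Icc (P v - η) (P v) ⊆ P '' C) := by
  have hinf : C.Infinite := hC.infinite_of_nontrivial hCn
  obtain ⟨w, hw, hne⟩ : ∃ w ∈ C, P w ≠ P v := by
    by_contra h
    push Not at h
    exact hinf ((hfib (P v)).subset fun y hy => ⟨hCO hy, h y hy⟩)
  have him : IsPreconnected (P '' C) := hC.image P hP.continuousOn
  have hord := him.ordConnected
  rcases lt_or_gt_of_ne hne with h | h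
  · refine ⟨P v - P w, by linarith, Or.inr ?_⟩
    rw [sub_sub_cancel]
    exact hord.out ⟨w, hw, rfl⟩ ⟨v, hv, rfl⟩
  · refine ⟨P w - P v, by linarith, Or.inl ?_⟩
    rw [add_sub_cancel]
    exact hord.out ⟨v, hv, rfl⟩ ⟨w, hw, rfl⟩

/-- the invariant -/
def Inv {Y : Type} [MetricSpace Y] (O : Set Y) (P : Y → ℝ) (n : ℕ) (a b : ℝ) : Prop :=
  a < b ∧ ∃ (V : Fin n → Set Y) (W : Set Y), IsCompact W ∧ W ⊆ O ∧ Icc a b ⊆ P '' W ∧
    (∀ k, IsCompact (V k) ∧ V k ⊆ O ∧ Icc a b ⊆ P '' V k ∧ Disjoint (V k) W) ∧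
    ∀ k l, k ≠ l → Disjoint (V k) (V l)

theorem inv_split {Y : Type} [MetricSpace Y] {O : Set Y} {P : Y → ℝ} (hP : Continuous P) {n : ℕ} {a b t a' b' : ℝ}
    (hab' : a' < b') (haa : a ≤ a') (hbb : b' ≤ b) (ht : t ∉ Icc a' b')
    {V : Fin n → Set Y} (hV : ∀ k, IsCompact (V k) ∧ V k ⊆ O ∧ Icc a b ⊆ P '' V k)
    (hVV : ∀ k l, k ≠ l → Disjoint (V k) (V l))
    {C1 C2 : Set Y} {v : Y} (hv : P v = t) (h1 : IsCompact C1) (h2 : IsCompact C2) (h1O : C1 ⊆ O) (h2O : C2 ⊆ O)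
    (h1V : ∀ k, Disjoint (V k) C1) (h2V : ∀ k, Disjoint (V k) C2) (h12 : C1 ∩ C2 ⊆ {v})
    (i1 : Icc a' b' ⊆ P '' C1) (i2 : Icc a' b' ⊆ P '' C2) : Inv O P (n + 1) a' b' := by
  have hcl : IsClosed (P ⁻¹' Icc a' b') := isClosed_Icc.preimage hP
  have sub : ∀ C : Set Y, Icc a' b' ⊆ P '' C → Icc a' b' ⊆ P '' (C ∩ P ⁻¹' Icc a' b') := by
    intro C hC x hx
    obtain ⟨y, hy, rfl⟩ := hC hx
    exact ⟨y, ⟨hy, hx⟩, rfl⟩
  have hIcc : Icc a' b' ⊆ Icc a b := Icc_subset_Icc haa hbb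
  have hd12 : Disjoint (C1 ∩ P ⁻¹' Icc a' b') (C2 ∩ P ⁻¹' Icc a' b') := by
    rw [Set.disjoint_left]
    rintro y ⟨hy1, hy2⟩ ⟨hy3, _⟩
    have hyv : y = v := h12 ⟨hy1, hy3⟩
    rw [hyv] at hy2
    have : P v ∈ Icc a' b' := hy2
    rw [hv] at this
    exact ht this
  refine ⟨hab', Fin.cons (C1 ∩ P ⁻¹' Icc a' b') V, C2 ∩ P ⁻¹' Icc a' b', h2.inter_right hcl,
    inter_subset_left.trans h2O, sub C2 i2, ?_, ?_⟩
  · intro k
    refine Fin.cases ?_ (fun k => ?_) k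
    · rw [Fin.cons_zero]
      exact ⟨h1.inter_right hcl, inter_subset_left.trans h1O, sub C1 i1, hd12⟩
    · rw [Fin.cons_succ]
      exact ⟨(hV k).1, (hV k).2.1, hIcc.trans (hV k).2.2, (h2V k).mono_right inter_subset_left⟩
  · intro k l
    refine Fin.cases ?_ (fun k => ?_) k <;> refine Fin.cases ?_ (fun l => ?_) l
    · intro h; exact absurd rfl h
    · intro _
      rw [Fin.cons_zero, Fin.cons_succ]
      exact ((h1V l).mono_right inter_subset_left).symm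
    · intro _
      rw [Fin.cons_zero, Fin.cons_succ]
      exact (h1V k).mono_right inter_subset_left
    · intro h
      rw [Fin.cons_succ, Fin.cons_succ]
      exact hVV k l fun e => h (by rw [e])

theorem inv_step {Y : Type} [MetricSpace Y] {O : Set Y} {P : Y → ℝ} (hO : IsOpen O) (hR : ∀ z ∈ O, R z)
    (hP : Continuous P) (hfib : ∀ t, {y ∈ O | P y = t}.Finite) {n : ℕ} {a b : ℝ} (h : Inv O P n a b) :
    ∃ a' b' : ℝ, a ≤ a' ∧ b' ≤ b ∧ Inv O P (n + 1) a' b' := by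
  obtain ⟨hab, V, W, hW, hWO, hWI, hV, hVV⟩ := h
  set t : ℝ := (a + b) / 2 with ht
  obtain ⟨v, hvW, hvt⟩ := hWI (show t ∈ Icc a b from ⟨by linarith, by linarith⟩)
  have hU : O ∩ ⋂ k, (V k)ᶜ ∈ 𝓝 v := by
    refine Filter.inter_mem (hO.mem_nhds (hWO hvW)) ?_
    refine Filter.iInter_mem.2 fun k => ?_
    refine (hV k).1.isClosed.isOpen_compl.mem_nhds fun hk => ?_
    exact (Set.disjoint_left.1 (hV k).2.2.2) hk hvW
  obtain ⟨C, hC, hCC⟩ := hR v (hWO hvW) _ hU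
  have hCO : ∀ i, C i ⊆ O := fun i => (hC i).2.2.2.2.trans inter_subset_left
  have hCV : ∀ i k, Disjoint (V k) (C i) := by
    intro i k
    rw [Set.disjoint_right]
    intro y hy
    exact (Set.mem_iInter.1 ((hC i).2.2.2.2 hy).2) k
  have hside : ∀ i, ∃ η : ℝ, 0 < η ∧ (Icc (P v) (P v + η) ⊆ P '' C i ∨ Icc (P v - η) (P v) ⊆ P '' C i) :=
    fun i => side hP hfib (hC i).2.1 (hC i).2.2.2.1 (hCO i) (hC i).2.2.1
  choose η hη0 hη using hside
  rw [hvt] at hη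
  -- two indices with the same side
  have hpair : ∃ i j : Fin 3, i ≠ j ∧ ((Icc t (t + η i) ⊆ P '' C i ∧ Icc t (t + η j) ⊆ P '' C j) ∨
      (Icc (t - η i) t ⊆ P '' C i ∧ Icc (t - η j) t ⊆ P '' C j)) := by
    rcases hη 0 with a0 | a0 <;> rcases hη 1 with a1 | a1 <;> rcases hη 2 with a2 | a2
    · exact ⟨0, 1, by decide, Or.inl ⟨a0, a1⟩⟩
    · exact ⟨0, 1, by decide, Or.inl ⟨a0, a1⟩⟩
    · exact ⟨0, 2, by decide, Or.inl ⟨a0, a2⟩⟩
    · exact ⟨1, 2, by decide, Or.inr ⟨a1, a2⟩⟩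
    · exact ⟨1, 2, by decide, Or.inl ⟨a1, a2⟩⟩
    · exact ⟨0, 2, by decide, Or.inr ⟨a0, a2⟩⟩
    · exact ⟨0, 1, by decide, Or.inr ⟨a0, a1⟩⟩
    · exact ⟨0, 1, by decide, Or.inr ⟨a0, a1⟩⟩
  obtain ⟨i, j, hij, hs⟩ := hpair
  set e : ℝ := min (min (η i) (η j)) ((b - a) / 2) with he
  have he0 : 0 < e := lt_min (lt_min (hη0 i) (hη0 j)) (by linarith)
  have hei : e ≤ η i := (min_le_left _ _).trans (min_le_left _ _)
  have hej : e ≤ η j := (min_le_left _ _).trans (min_le_right _ _)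
  have heb : e ≤ (b - a) / 2 := min_le_right _ _
  have hV' : ∀ k, IsCompact (V k) ∧ V k ⊆ O ∧ Icc a b ⊆ P '' V k := fun k =>
    ⟨(hV k).1, (hV k).2.1, (hV k).2.2.1⟩
  rcases hs with ⟨s1, s2⟩ | ⟨s1, s2⟩
  · refine ⟨t + e / 2, t + e, by linarith, by linarith, ?_⟩
    refine inv_split (a := a) (b := b) (t := t) hP (by linarith) (by linarith) (by linarith)
      (fun h => by linarith [h.1]) hV' hVV hvt (hC i).1 (hC j).1 (hCO i) (hCO j) (hCV i) (hCV j) (hCC i j hij)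
      ((Icc_subset_Icc (by linarith) (by linarith)).trans s1) ((Icc_subset_Icc (by linarith) (by linarith)).trans s2)
  · refine ⟨t - e, t - e / 2, by linarith, by linarith, ?_⟩
    refine inv_split (a := a) (b := b) (t := t) hP (by linarith) (by linarith) (by linarith)
      (fun h => by linarith [h.2]) hV' hVV hvt (hC i).1 (hC j).1 (hCO i) (hCO j) (hCV i) (hCV j) (hCC i j hij)
      ((Icc_subset_Icc (by linarith) (by linarith)).trans s1) ((Icc_subset_Icc (by linarith) (by linarith)).trans s2)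

theorem inv_start {Y : Type} [MetricSpace Y] {O : Set Y} {P : Y → ℝ} (hO : IsOpen O) (hOn : O.Nonempty)
    (hR : ∀ z ∈ O, R z) (hP : Continuous P) (hfib : ∀ t, {y ∈ O | P y = t}.Finite) :
    ∃ a b : ℝ, Inv O P 0 a b := by
  obtain ⟨z, hz⟩ := hOn
  obtain ⟨C, hC, -⟩ := hR z hz O (hO.mem_nhds hz)
  obtain ⟨h1, h2, h3, h4, h5⟩ := hC 0
  obtain ⟨η, hη, hs⟩ := side hP hfib h2 h4 h5 h3
  rcases hs with hs | hs
  · exact ⟨P z, P z + η, by linarith, fun k => k.elim0, C 0, h1, h5, hs, fun k => k.elim0, fun k => k.elim0⟩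
  · exact ⟨P z - η, P z, by linarith, fun k => k.elim0, C 0, h1, h5, hs, fun k => k.elim0, fun k => k.elim0⟩

theorem job6 : S_inf := by
  intro Y _ _ O P hO hOn hR hP
  by_contra hcon
  push Not at hcon
  have hfib : ∀ t, {y ∈ O | P y = t}.Finite := fun t => hcon t
  obtain ⟨a0, b0, h0⟩ := inv_start hO hOn hR hP hfib
  -- the sequence of intervals
  have hstep : ∀ (n : ℕ) (p : {p : ℝ × ℝ // Inv O P n p.1 p.2}),
      ∃ q : {p : ℝ × ℝ // Inv O P (n + 1) p.1 p.2}, p.1.1 ≤ q.1.1 ∧ q.1.2 ≤ p.1.2 := by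
    rintro n ⟨p, hp⟩
    obtain ⟨a', b', h1, h2, h3⟩ := inv_step hO hR hP hfib hp
    exact ⟨⟨(a', b'), h3⟩, h1, h2⟩
  choose nx hnx using hstep
  let s : ∀ n : ℕ, {p : ℝ × ℝ // Inv O P n p.1 p.2} := fun n => Nat.rec ⟨(a0, b0), h0⟩ (fun n p => nx n p) n
  have hs : ∀ n, (s n).1.1 ≤ (s (n + 1)).1.1 ∧ (s (n + 1)).1.2 ≤ (s n).1.2 := fun n => hnx n (s n)
  obtain ⟨t, ht⟩ := IsCompact.nonempty_iInter_of_sequence_nonempty_isCompact_isClosed
    (fun n => Icc (s n).1.1 (s n).1.2) (fun n => Icc_subset_Icc (hs n).1 (hs n).2)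
    (fun n => nonempty_Icc.2 (s n).2.1.le) isCompact_Icc fun n => isClosed_Icc
  rw [mem_iInter] at ht
  have hf := hfib t
  set c : ℕ := hf.toFinset.card with hc
  obtain ⟨_, V, W, _, _, _, hV, hVV⟩ := (s (c + 1)).2
  have hpt : ∀ k : Fin (c + 1), ∃ y, y ∈ V k ∧ P y = t := fun k => by
    obtain ⟨y, hy, he⟩ := (hV k).2.2.1 (ht (c + 1))
    exact ⟨y, hy, he⟩
  choose y hy hyt using hpt
  have hinj : Function.Injective y := by
    intro k l hkl
    by_contra hne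
    refine (Set.disjoint_left.1 (hVV k l hne)) (hy k) ?_
    rw [hkl]
    exact hy l
  have hcard := Finset.card_le_card_of_injOn (s := (Finset.univ : Finset (Fin (c + 1)))) (t := hf.toFinset) y
    (fun k _ => by
      simp only [Finset.mem_coe, Set.Finite.mem_toFinset]
      exact ⟨(hV k).2.1 (hy k), hyt k⟩) (fun k _ l _ h => hinj h)
  rw [Finset.card_univ, Fintype.card_fin, ← hc] at hcard
  omega

end Pool.Agent.Q65.FTO
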